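import Pool.Agent.Run7.h445.QC.Prim
import Pool.Agent.N17.HC.Stm

set_option autoImplicit false

open Finset

namespace Pool.Agent.Run7.h445.QC

open Pool.Agent.N17.HC (disc3)

theorem sqd (h m q : ℤ) (hq : Squarefree q) (hm : m ≠ 0) (hh : h ^ 2 ∣ m ^ 2 * q) : h ∣ m := by
  set g : ℤ := (Int.gcd h m : ℤ) with hg
  have hg0 : g ≠ 0 := by
    rw [hg]
    exact_mod_cast (Int.gcd_pos_of_ne_zero_right _ hm).ne'
  obtain ⟨a, ha⟩ : g ∣ h := Int.gcd_dvd_left _ _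
  obtain ⟨b, hb⟩ : g ∣ m := Int.gcd_dvd_right _ _
  have hab : IsCoprime a b := by
    rw [Int.isCoprime_iff_gcd_eq_one]
    have h1 : Int.gcd (g * a) (g * b) = Int.gcd h m := by rw [← ha, ← hb]
    rw [Int.gcd_mul_left] at h1
    have h2 : (g.natAbs : ℤ) * (Int.gcd a b : ℤ) = g := by
      rw [hg]
      exact_mod_cast h1
    have h3 : (g.natAbs : ℤ) = g := by
      rw [hg]
      simp
    rw [h3] at h2
    have h5 : (Int.gcd a b : ℤ) = 1 := by
      apply mul_left_cancel₀ hg0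
      rw [h2, mul_one]
    exact_mod_cast h5
  have h1 : a ^ 2 ∣ b ^ 2 * q := by
    obtain ⟨w, hw⟩ := hh
    refine ⟨w, ?_⟩
    apply mul_left_cancel₀ (pow_ne_zero 2 hg0)
    calc g ^ 2 * (b ^ 2 * q) = (g * b) ^ 2 * q := by ring
      _ = m ^ 2 * q := by rw [← hb]
      _ = h ^ 2 * w := hw
      _ = (g * a) ^ 2 * w := by rw [← ha]
      _ = _ := by ring
  have h2 : a ^ 2 ∣ q := (hab.pow (m := 2) (n := 2)).dvd_of_dvd_mul_left h1
  have h3 : IsUnit a := hq a (by rwa [← sq])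
  rw [ha, hb]
  exact mul_dvd_mul dvd_rfl (h3.dvd)

theorem hdiv (f : ℤ) (hf : Squarefree f) (h : ℤ) (hh : h ^ 2 ∣ 4 * (-27 * f)) : h ∣ 18 := by
  by_cases h3 : (3 : ℤ) ∣ f
  · obtain ⟨f', hf'⟩ := h3
    have hsf : Squarefree (-f') := by
      have h1 : Squarefree f' := hf.squarefree_of_dvd ⟨3, by rw [hf']; ring⟩
      exact h1.squarefree_of_dvd ((neg_dvd).2 dvd_rfl)
    refine sqd h 18 (-f') hsf (by norm_num) ?_
    have e : (18 : ℤ) ^ 2 * (-f') = 4 * (-27 * f) := by rw [hf']; ring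
    rwa [e]
  · have hsf : Squarefree (3 * f) := by
      rw [squarefree_mul_iff]
      refine ⟨?_, Int.prime_three.squarefree, hf⟩
      rw [isRelPrime_iff_isCoprime]
      exact (Int.prime_three.coprime_iff_not_dvd).2 h3
    have hsf' : Squarefree (-(3 * f)) := hsf.squarefree_of_dvd ((neg_dvd).2 dvd_rfl)
    have h1 : h ∣ 6 := by
      refine sqd h 6 (-(3 * f)) hsf' (by norm_num) ?_
      have e : (6 : ℤ) ^ 2 * (-(3 * f)) = 4 * (-27 * f) := by ring
      rwa [e]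
    exact h1.trans ⟨3, by norm_num⟩

theorem ne_neg_three (f s X : ℤ) (hf : Squarefree f) (hf3 : f ≠ -3)
    (h : X ^ 2 = -27 * f * s ^ 2) : X = 0 := by
  by_contra hX
  have hs : s ≠ 0 := by
    rintro rfl
    apply hX
    have : X ^ 2 = 0 := by rw [h]; ring
    exact pow_eq_zero_iff two_ne_zero |>.1 this
  have hdvd : s ^ 2 ∣ X ^ 2 := ⟨-27 * f, by rw [h]; ring⟩
  obtain ⟨t, ht⟩ := (Int.pow_dvd_pow_iff two_ne_zero).mp hdvd
  have h1 : t ^ 2 = -27 * f := by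
    apply mul_left_cancel₀ (pow_ne_zero 2 hs)
    rw [← mul_pow, ← ht, h]; ring
  have h3 : (3 : ℤ) ∣ t := Int.prime_three.dvd_of_dvd_pow ⟨-9 * f, by rw [h1]; ring⟩
  obtain ⟨u, hu⟩ := h3
  have h2 : u ^ 2 = -3 * f := by
    rw [hu] at h1
    linarith
  have h4 : (3 : ℤ) ∣ u := Int.prime_three.dvd_of_dvd_pow ⟨-f, by rw [h2]; ring⟩
  obtain ⟨w, hw⟩ := h4
  have h5 : f = -3 * w ^ 2 := by
    rw [hw] at h2
    linarith
  have h6 : IsUnit w := hf w ⟨-3, by rw [h5]; ring⟩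
  have h7 : w ^ 2 = 1 := by
    rcases Int.isUnit_iff.1 h6 with rfl | rfl <;> norm_num
  exact hf3 (by rw [h5, h7]; norm_num)

/-- for given `a`, `b` and the kernel `f` of the discriminant there are few `c` -/
theorem cubic_card (a b f : ℤ) (hf : Squarefree f) (hf3 : f ≠ -3) (B : ℕ) (S : Finset ℤ)
    (hS : ∀ c ∈ S, ∃ s : ℤ, disc3 a b c = f * s ^ 2 ∧
      |2 * a ^ 3 - 9 * a * b + 27 * c| ≤ (B : ℤ) ∧ |s| ≤ (B : ℤ)) :
    S.card ≤ 1 + (4 * (a ^ 2 - 3 * b) ^ 3).natAbs.divisors.card *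
      ((4 * (a ^ 2 - 3 * b) ^ 3).natAbs.divisors.card *
      (419904 * (Nat.log 2 (18 * (1 + (-27 * f).natAbs) * B ^ 2) + 1))) := by
  classical
  choose! s hs1 hs2 hs3 using hS
  have hid : ∀ c ∈ S, (2 * a ^ 3 - 9 * a * b + 27 * c) ^ 2 - (-27 * f) * s c ^ 2 =
      4 * (a ^ 2 - 3 * b) ^ 3 := by
    intro c hc
    have h1 := hs1 c hc
    have h2 : (2 * a ^ 3 - 9 * a * b + 27 * c) ^ 2 + 27 * disc3 a b c =
        4 * (a ^ 2 - 3 * b) ^ 3 := by
      unfold Pool.Agent.N17.HC.disc3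
      ring
    rw [← h2, h1]
    ring
  have hf0 := hf.ne_zero
  by_cases hn : 4 * (a ^ 2 - 3 * b) ^ 3 = 0
  · have h1 : S.card ≤ 1 := by
      rw [card_le_one]
      intro c hc c' hc'
      have e1 := hid c hc
      have e2 := hid c' hc'
      rw [hn] at e1 e2
      have z1 := ne_neg_three f (s c) (2 * a ^ 3 - 9 * a * b + 27 * c) hf hf3 (by linarith)
      have z2 := ne_neg_three f (s c') (2 * a ^ 3 - 9 * a * b + 27 * c') hf hf3 (by linarith)
      linarith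
    omega
  · set κ : ℤ → ℤ × ℤ := fun c => (2 * a ^ 3 - 9 * a * b + 27 * c, s c) with hκ
    have hinj : Set.InjOn κ (S : Set ℤ) := by
      intro c _ c' _ h
      simp only [hκ, Prod.mk.injEq] at h
      linarith [h.1]
    have h1 := all_card (4 * (a ^ 2 - 3 * b) ^ 3) (-27 * f) hn (by omega) (by omega)
      (hdiv f hf) B (S.image κ) (by
        intro v hv
        obtain ⟨c, hc, rfl⟩ := mem_image.1 hv
        exact ⟨hid c hc, hs2 c hc, hs3 c hc⟩)
    rw [card_image_of_injOn hinj] at h1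
    omega

end Pool.Agent.Run7.h445.QC
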