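import Pool.Agent.Run7.h445.QC.Cubic
import Pool.Agent.Run7.h445.QS.Kern
import Pool.Agent.H510R2.Div
import Pool.Agent.N17.CK.MAIN
import Pool.Agent.N17.CK.ROOT
import Pool.Agent.N17.CK.BD
import Pool.Agent.N17.CK.POSEND
import Pool.Agent.N17.HC.KOS
import Pool.Agent.N17.HC.LSP
import Pool.Agent.N17.HC.ALG

/-!
# The number of possible Chern polynomials in codimension three
-/

set_option autoImplicit false

open Polynomial Filter Finset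

namespace Pool.Agent.Run7.h445.QC

open Pool.Agent.N17.HC Pool.Agent.N17.HC.FIN Pool.Agent.N17.CK Pool.Agent.Run7.h445.QS

/-- the conditions on the polynomial -/
def Good (N : ℕ) (P : ℤ[X]) : Prop :=
  P.Monic ∧ P.natDegree = 3 ∧ (∀ i ≤ 3, 0 ≤ chern 3 P i) ∧
    (∀ i < 3, chern 3 P (i + 1) ≤ chern 3 P 1 * chern 3 P i) ∧
    (∀ t : ℤ, ∃ z : ℤ, kos N (rootsOf P) (N + t) = z) ∧
    (∀ t : ℤ, ∃ z : ℤ, ((rootsOf P).map fun b => kos N (rootsOf P) (N + t - b)).sum = z)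

/-- sizes of the coefficients -/
theorem sizes (N : ℕ) (P : ℤ[X]) (h : Good N P) (H : ℝ) (hH : (-(P.coeff 2 : ℤ) : ℝ) ≤ H) :
    P = P3 (-P.coeff 2) (P.coeff 1) (-P.coeff 0) ∧ 3 ≤ -P.coeff 2 ∧ 1 ≤ -P.coeff 0 ∧
    |(P.coeff 1 : ℝ)| ≤ 12 * H ^ 2 ∧ |(((-P.coeff 0 : ℤ)) : ℝ)| ≤ 8 * H ^ 3 ∧
    |((disc3 (-P.coeff 2) (P.coeff 1) (-P.coeff 0) : ℤ) : ℝ)| ≤ 4096 * H ^ 6 := by
  obtain ⟨hP, hrP, hpos, hsch, -, -⟩ := h
  have hP3 := form3 P hP hrP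
  have hc1 := Pool.Agent.N17.CK.MAIN.chern_one 3 (by norm_num) P hP hrP
  have he1 := hpos 1 (by norm_num)
  set E : ℝ := 2 * ((chern 3 P 1 : ℤ) : ℝ) with hEdef
  have hE0 : 0 ≤ E := by
    have : (0 : ℝ) ≤ ((chern 3 P 1 : ℤ) : ℝ) := by exact_mod_cast he1
    linarith
  have hEc : ((chern 3 P 1 : ℤ) : ℝ) = -(P.coeff 2 : ℝ) - 3 := by
    rw [hc1]
    push_cast
    norm_num
  have hE2 : E + 1 ≤ 2 * H := by
    rw [hEdef, hEc]
    linarith
  have hroot : ∀ β ∈ rootsOf P, ‖β - 1‖ ≤ E := t_ROOT 3 P hP hrP hpos hsch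
  obtain ⟨hd1, -⟩ := t_POS 3 P hP hrP hpos
  have hc3 : 3 ≤ -P.coeff 2 := by
    have h1 : (0 : ℝ) ≤ -(P.coeff 2 : ℝ) - 3 := by rw [← hEc]; exact_mod_cast he1
    have h2 : (3 : ℝ) ≤ ((-P.coeff 2 : ℤ) : ℝ) := by push_cast; linarith
    exact_mod_cast h2
  obtain ⟨b1, b2, b3, b4⟩ := t_BD.1 (-P.coeff 2) (P.coeff 1) (-P.coeff 0) E hE0 (by
    rw [← hP3]; exact hroot)
  have hE1 : 0 ≤ E + 1 := by linarith
  refine ⟨hP3, hc3, ?_, ?_, ?_, ?_⟩
  · have : (-1 : ℤ) ^ 3 * P.coeff 0 = -P.coeff 0 := by ring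
    linarith
  · refine b2.trans ?_
    have := pow_le_pow_left₀ hE1 hE2 2
    nlinarith
  · refine b3.trans ?_
    have := pow_le_pow_left₀ hE1 hE2 3
    calc (E + 1) ^ 3 ≤ (2 * H) ^ 3 := this
      _ = 8 * H ^ 3 := by ring
  · refine b4.trans ?_
    have := pow_le_pow_left₀ hE0 (by linarith : E ≤ 2 * H) 6
    calc 64 * E ^ 6 ≤ 64 * (2 * H) ^ 6 := by linarith
      _ = 4096 * H ^ 6 := by ring

theorem loc3 (N : ℕ) (P : ℤ[X]) (h : Good N P) (hP3 : P = P3 (-P.coeff 2) (P.coeff 1) (-P.coeff 0))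
    (p : ℕ) (hp : p.Prime) (h3 : 3 < p) (hpN : p + 6 ≤ N + 1) (hpd : ¬ (p : ℤ) ∣ -P.coeff 0) :
    ∃ t : ℤ, (p : ℤ) ∣ disc3 (-P.coeff 2) (P.coeff 1) (-P.coeff 0) - t ^ 2 := by
  obtain ⟨hP, hrP, hpos, hsch, h1, h2⟩ := h
  obtain ⟨x, hx⟩ := loc t_KOS t_LSP N 3 P hP hrP (-P.coeff 0) (by ring) h1 h2 p hp h3
    (by omega) hpd
  have : NeZero p := ⟨hp.ne_zero⟩
  apply t_ALG.1
  exact spl3 _ _ _ p x (by rw [← hP3]; exact hx)

/-- the kernel of the discriminant -/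
theorem kernel (N y : ℕ) (hy : y + 6 ≤ N + 1) (A' H : ℝ) (hH1 : 1 ≤ H)
    (hA' : 4096 * H ^ 6 ≤ (y : ℝ) ^ A') (F : Finset ℤ) (hF : ∀ f, Adm 3 y A' f → f ∈ F)
    (P : ℤ[X]) (h : Good N P) (hH : (-(P.coeff 2 : ℤ) : ℝ) ≤ H) :
    ∃ f ∈ insert 1 F, ∃ s : ℤ, disc3 (-P.coeff 2) (P.coeff 1) (-P.coeff 0) = f * s ^ 2 ∧
      |(f : ℝ)| ≤ 4096 * H ^ 6 ∧ |(s : ℝ)| ≤ 4096 * H ^ 6 := by
  obtain ⟨hP3, ha, hc, hb, hcH, hD⟩ := sizes N P h H hH
  have hH3 : 1 ≤ H ^ 3 := one_le_pow₀ hH1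
  have hH6 : 1 ≤ H ^ 6 := one_le_pow₀ hH1
  set D := disc3 (-P.coeff 2) (P.coeff 1) (-P.coeff 0) with hDdef
  by_cases hD0 : D = 0
  · refine ⟨1, mem_insert_self _ _, 0, by rw [hD0]; ring, ?_, ?_⟩
    · push_cast
      rw [abs_one]
      linarith
    · push_cast
      rw [abs_zero]
      linarith
  obtain ⟨f, s, hf, hs0, hfs⟩ := Pool.Agent.R852.LK.sqf D hD0
  have hf1 : 1 ≤ |f| := Int.one_le_abs hf.ne_zero
  have hs1 : 1 ≤ |s| := Int.one_le_abs hs0.ne'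
  have hfD : |f| ≤ |D| := by
    rw [hfs, abs_mul, abs_pow]
    nlinarith [mul_nonneg (abs_nonneg f) (by nlinarith : 0 ≤ |s| ^ 2 - 1)]
  have hsD : |s| ≤ |D| := by
    rw [hfs, abs_mul, abs_pow]
    nlinarith [mul_le_mul hf1 hs1 (by norm_num) (abs_nonneg f)]
  have hfD' : |(f : ℝ)| ≤ 4096 * H ^ 6 := by
    refine le_trans ?_ hD
    exact_mod_cast hfD
  have hsD' : |(s : ℝ)| ≤ 4096 * H ^ 6 := by
    refine le_trans ?_ hD
    exact_mod_cast hsD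
  refine ⟨f, ?_, s, hfs, hfD', hsD'⟩
  rw [mem_insert]
  by_cases hsq : IsSquare f
  · left
    obtain ⟨m, hm⟩ := hsq
    have h6 : IsUnit m := hf m ⟨1, by rw [hm]; ring⟩
    rcases Int.isUnit_iff.1 h6 with rfl | rfl
    · rw [hm]; norm_num
    · rw [hm]; norm_num
  · right
    apply hF
    refine ⟨hf, hsq, D, -P.coeff 0, hD0, ?_, hD.trans hA', by omega, ?_, ?_⟩
    · exact ⟨f * s, by rw [hfs]; ring⟩
    · refine hcH.trans (le_trans ?_ hA')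
      have : H ^ 3 ≤ H ^ 6 := pow_le_pow_right₀ hH1 (by norm_num)
      nlinarith
    · intro p hp h3 hpy hpd
      exact loc3 N P h hP3 p hp h3 (by omega) hpd

/-- logarithms are smaller than powers -/
theorem log_bound (C δ : ℝ) (hC : ∀ n : ℕ, 1 ≤ n → (n.divisors.card : ℝ) ≤ C * (n : ℝ) ^ δ)
    (hδ : 0 < δ) (hC0 : 0 < C) (W : ℕ) (hW : W ≠ 0) :
    ((Nat.log 2 W + 1 : ℕ) : ℝ) ≤ C * (W : ℝ) ^ δ := by
  have h1 := hC (2 ^ Nat.log 2 W) Nat.one_le_two_pow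
  rw [Nat.divisors_prime_pow Nat.prime_two, card_map, card_range] at h1
  refine h1.trans ?_
  have h2 : ((2 ^ Nat.log 2 W : ℕ) : ℝ) ≤ W := by
    exact_mod_cast Nat.pow_log_le_self 2 hW
  exact mul_le_mul_of_nonneg_left (Real.rpow_le_rpow (by positivity) h2 hδ.le) hC0.le

theorem final3 (A ε : ℝ) (hε : 0 < ε) : ∃ N₀ : ℕ, ∀ N : ℕ, N₀ ≤ N → ∀ H : ℝ, 1 ≤ H →
    H ≤ (N : ℝ) ^ A → ∀ S : Finset ℤ[X],
    (∀ P ∈ S, Good N P ∧ (-(P.coeff 2 : ℤ) : ℝ) ≤ H) → (S.card : ℝ) ≤ H ^ 3 * (N : ℝ) ^ ε := by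
  classical
  have hE1 := exp_lb
  obtain ⟨ε0, hε0, hε1, hεε⟩ : ∃ δ : ℝ, 0 < δ ∧ δ ≤ 1 ∧ δ ≤ ε :=
    ⟨min ε 1, lt_min hε (by norm_num), min_le_right _ _, min_le_left _ _⟩
  set A1 : ℝ := max A 1 with hA1
  have hA11 : 1 ≤ A1 := le_max_right _ _
  set T : ℝ := 18 * A1 + 1 with hT
  have hT0 : 0 < T := by linarith
  set δ : ℝ := ε0 / (8 * T) with hδ
  have hδ0 : 0 < δ := by positivity
  have hTδ : T * δ = ε0 / 8 := by rw [hδ]; field_simp
  obtain ⟨C, hC0, hC⟩ := Pool.Agent.H510R2.divisor_bound δ hδ0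
  have hpow : ∀ (c a : ℝ), 0 < a → ∀ᶠ N : ℕ in atTop, c ≤ (N : ℝ) ^ a := fun c a ha =>
    tendsto_natCast_atTop_atTop.eventually ((tendsto_rpow_atTop ha).eventually_ge_atTop _)
  have ev1 := (kern 3 (6 * A1 + 1) (ε0 / 4) (by linarith) (by linarith)).and
    ((transfer (6 * A1 + 1) 1 0 4096 (by linarith) (by norm_num)).and (eventually_ge_atTop 4))
  obtain ⟨y₀, hy₀⟩ := eventually_atTop.1 ev1
  obtain ⟨N₁, hN₁⟩ := eventually_atTop.1 ((hpow (10 ^ 14) 1 one_pos).and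
    (hpow (100 * (1 + 419904 * C ^ 3)) (3 * ε0 / 8) (by positivity)))
  refine ⟨max N₁ (y₀ + 12), fun N hN H hH1 hHA S hS => ?_⟩
  obtain ⟨p1, p2⟩ := hN₁ N (by omega)
  obtain ⟨⟨F, q1, q2, q3⟩, q4, q5⟩ := hy₀ (N - 5) (by omega)
  set y := N - 5 with hy
  have hNy : N ≤ 2 * y := by omega
  have hyN : y ≤ N := by omega
  rw [Real.rpow_one] at p1
  have hN1 : (1 : ℝ) ≤ N := by linarith
  have hN0 : (0 : ℝ) < N := by linarith
  have hy4 : (4 : ℝ) ≤ y := by exact_mod_cast q5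
  have hyN' : (y : ℝ) ≤ N := by exact_mod_cast hyN
  have hHA1 : H ≤ (N : ℝ) ^ A1 :=
    hHA.trans (Real.rpow_le_rpow_of_exponent_le hN1 (le_max_left _ _))
  have hH0 : 0 < H := by linarith
  have hpowH : ∀ k : ℕ, H ^ k ≤ (N : ℝ) ^ ((k : ℝ) * A1) := by
    intro k
    calc H ^ k ≤ ((N : ℝ) ^ A1) ^ k := pow_le_pow_left₀ hH0.le hHA1 k
      _ = (N : ℝ) ^ ((k : ℝ) * A1) := by
          rw [← Real.rpow_natCast, ← Real.rpow_mul hN0.le, mul_comm]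
  have hA' : 4096 * H ^ 6 ≤ (y : ℝ) ^ (6 * A1 + 1) := by
    have h1 := q4 N hNy
    rw [sub_zero, add_sub_cancel_right] at h1
    refine le_trans ?_ h1
    have h2 := hpowH 6
    push_cast at h2
    linarith
  -- the kernels
  have hK : ∀ P ∈ S, ∃ v : ℤ × ℤ, v.1 ∈ insert 1 F ∧
      disc3 (-P.coeff 2) (P.coeff 1) (-P.coeff 0) = v.1 * v.2 ^ 2 ∧
      |(v.1 : ℝ)| ≤ 4096 * H ^ 6 ∧ |(v.2 : ℝ)| ≤ 4096 * H ^ 6 := by
    intro P hP
    obtain ⟨f, hf, s, h1, h2, h3⟩ := kernel N y (by omega) (6 * A1 + 1) H hH1 hA' F q3 P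
      (hS P hP).1 (hS P hP).2
    exact ⟨(f, s), hf, h1, h2, h3⟩
  choose! κ hκ1 hκ2 hκ3 hκ4 using hK
  have hF' : ∀ f ∈ insert 1 F, Squarefree f ∧ f ≠ -3 := by
    intro f hf
    rcases mem_insert.1 hf with rfl | hf
    · exact ⟨squarefree_one, by norm_num⟩
    · refine ⟨(q2 f hf).1, ?_⟩
      rintro rfl
      have h1 := (q2 (-3) hf).2
      have h2 : (y : ℝ) ^ (1 : ℝ) ≤ (y : ℝ) ^ (4 * Real.exp (1 / 2) - ε0 / 4) :=
        Real.rpow_le_rpow_of_exponent_le (by linarith) (by linarith)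
      rw [Real.rpow_one] at h2
      push_cast at h1
      rw [abs_neg] at h1
      have h3 : |(3 : ℝ)| = 3 := by norm_num
      rw [h3] at h1
      linarith
  -- the box
  set M1 : ℤ := ⌊H⌋ with hM1
  set M2 : ℤ := ⌊12 * H ^ 2⌋ with hM2
  set box : Finset ((ℤ × ℤ) × ℤ) := (Icc 1 M1 ×ˢ Icc (-M2) M2) ×ˢ insert 1 F with hbox
  set Φ : ℤ[X] → (ℤ × ℤ) × ℤ := fun P => ((-P.coeff 2, P.coeff 1), (κ P).1) with hΦ
  have hmap : ∀ P ∈ S, Φ P ∈ box := by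
    intro P hP
    obtain ⟨-, ha, hc, hb, -, -⟩ := sizes N P (hS P hP).1 H (hS P hP).2
    rw [hbox, mem_product, mem_product, mem_Icc, mem_Icc]
    refine ⟨⟨⟨by simp only [hΦ]; omega, ?_⟩, ?_⟩, hκ1 P hP⟩
    · rw [hM1, Int.le_floor]
      simp only [hΦ]
      push_cast
      exact (hS P hP).2
    · rw [← abs_le, hM2, Int.le_floor]
      simp only [hΦ]
      push_cast
      exact hb
  set B : ℕ := ⌈4096 * H ^ 6⌉₊ with hB
  have hH6 : 1 ≤ H ^ 6 := one_le_pow₀ hH1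
  have hB1 : 4096 * H ^ 6 ≤ B := Nat.le_ceil _
  have hB2 : (B : ℝ) ≤ 5000 * H ^ 6 := by
    have := (Nat.ceil_lt_add_one (by positivity : 0 ≤ 4096 * H ^ 6)).le
    linarith
  have hTN : (10 : ℝ) ^ 14 * H ^ 18 ≤ (N : ℝ) ^ T := by
    have h1 := hpowH 18
    push_cast at h1
    have h2 : (N : ℝ) ^ T = (N : ℝ) ^ (18 * A1) * N := by
      rw [hT, Real.rpow_add hN0, Real.rpow_one]
    rw [h2, mul_comm]
    exact mul_le_mul h1 p1 (by positivity) (by positivity)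
  have hNδ : ∀ x : ℝ, 0 ≤ x → x ≤ (N : ℝ) ^ T → x ^ δ ≤ (N : ℝ) ^ (ε0 / 8) := by
    intro x hx0 hx
    calc x ^ δ ≤ ((N : ℝ) ^ T) ^ δ := Real.rpow_le_rpow hx0 hx hδ0.le
      _ = (N : ℝ) ^ (ε0 / 8) := by rw [← Real.rpow_mul hN0.le, hTδ]
  set Z : ℝ := (N : ℝ) ^ (ε0 / 8) with hZ
  have hZ1 : 1 ≤ Z := Real.one_le_rpow hN1 (by positivity)
  have hfib : ∀ v ∈ box, ((S.filter fun P => Φ P = v).card : ℝ) ≤ 1 + 419904 * C ^ 3 * Z ^ 3 := by
    intro v hv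
    rcases (S.filter fun P => Φ P = v).eq_empty_or_nonempty with h | ⟨P₀, hP₀⟩
    · rw [h]
      simp only [card_empty, Nat.cast_zero]
      positivity
    obtain ⟨⟨a, b⟩, f⟩ := v
    have hP₀' := mem_filter.1 hP₀
    have hfF : f ∈ insert 1 F := (mem_product.1 hv).2
    obtain ⟨hfsq, hf3⟩ := hF' f hfF
    have hab : ∀ P ∈ S.filter (fun P => Φ P = ((a, b), f)),
        P ∈ S ∧ -P.coeff 2 = a ∧ P.coeff 1 = b ∧ (κ P).1 = f := by
      intro P hP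
      obtain ⟨h1, h2⟩ := mem_filter.1 hP
      simp only [hΦ, Prod.mk.injEq] at h2
      exact ⟨h1, h2.1.1, h2.1.2, h2.2⟩
    have hinj : Set.InjOn (fun P : ℤ[X] => -P.coeff 0)
        ((S.filter fun P => Φ P = ((a, b), f) : Finset ℤ[X]) : Set ℤ[X]) := by
      intro P hP Q hQ hPQ
      obtain ⟨h1, h2, h3, -⟩ := hab P hP
      obtain ⟨k1, k2, k3, -⟩ := hab Q hQ
      have e1 := (sizes N P (hS P h1).1 H (hS P h1).2).1
      have e2 := (sizes N Q (hS Q k1).1 H (hS Q k1).2).1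
      have hPQ' : -P.coeff 0 = -Q.coeff 0 := hPQ
      rw [e1, e2, h2, h3, k2, k3, hPQ']
    rw [← card_image_of_injOn hinj]
    obtain ⟨h01, h02, h03, h04⟩ := hab P₀ hP₀
    have haH : |(a : ℝ)| ≤ H := by
      obtain ⟨-, h5, -⟩ := sizes N P₀ (hS P₀ h01).1 H (hS P₀ h01).2
      have h6 := (hS P₀ h01).2
      rw [h02] at h5
      have h7 : (a : ℝ) ≤ H := by
        rw [← h02]
        push_cast
        exact h6
      have h8 : (0 : ℝ) ≤ a := by exact_mod_cast (by linarith : (0 : ℤ) ≤ a)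
      rwa [abs_of_nonneg h8]
    have hbH : |(b : ℝ)| ≤ 12 * H ^ 2 := by
      obtain ⟨-, -, -, h5, -⟩ := sizes N P₀ (hS P₀ h01).1 H (hS P₀ h01).2
      rwa [h03] at h5
    have hfH : |(f : ℝ)| ≤ 4096 * H ^ 6 := by
      rw [← h04]
      exact hκ3 P₀ h01
    have hcub := cubic_card a b f hfsq hf3 B
      ((S.filter fun P => Φ P = ((a, b), f)).image fun P => -P.coeff 0) (by
        intro c hc
        obtain ⟨P, hP, rfl⟩ := mem_image.1 hc
        obtain ⟨h1, h2, h3, h4⟩ := hab P hP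
        refine ⟨(κ P).2, ?_, ?_, ?_⟩
        · have := hκ2 P h1
          rw [h2, h3, h4] at this
          exact this
        · obtain ⟨-, -, -, -, h5, -⟩ := sizes N P (hS P h1).1 H (hS P h1).2
          have h6 : |((2 * a ^ 3 - 9 * a * b + 27 * (-P.coeff 0) : ℤ) : ℝ)| ≤ B := by
            refine le_trans ?_ hB1
            push_cast at h5 ⊢
            have h7 : |(a : ℝ)| ^ 3 ≤ H ^ 3 := pow_le_pow_left₀ (abs_nonneg _) haH 3
            have h8 : |(a : ℝ)| * |(b : ℝ)| ≤ H * (12 * H ^ 2) :=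
              mul_le_mul haH hbH (abs_nonneg _) hH0.le
            have h9 : H ^ 3 ≤ H ^ 6 := pow_le_pow_right₀ hH1 (by norm_num)
            calc |2 * (a : ℝ) ^ 3 - 9 * a * b + 27 * -(P.coeff 0 : ℝ)|
                ≤ |2 * (a : ℝ) ^ 3 - 9 * a * b| + |27 * -(P.coeff 0 : ℝ)| := abs_add_le _ _
              _ ≤ |2 * (a : ℝ) ^ 3| + |9 * (a : ℝ) * b| + |27 * -(P.coeff 0 : ℝ)| := by
                  gcongr
                  exact abs_sub _ _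
              _ = 2 * |(a : ℝ)| ^ 3 + 9 * (|(a : ℝ)| * |(b : ℝ)|) + 27 * |-(P.coeff 0 : ℝ)| := by
                  rw [abs_mul, abs_mul, abs_mul, abs_mul, abs_pow]
                  norm_num
                  ring
              _ ≤ 2 * H ^ 3 + 9 * (H * (12 * H ^ 2)) + 27 * (8 * H ^ 3) := by gcongr
              _ ≤ 4096 * H ^ 6 := by nlinarith
          exact_mod_cast h6
        · have h6 : |((κ P).2 : ℝ)| ≤ B := (hκ4 P h1).trans hB1
          exact_mod_cast h6)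
    set n := (4 * (a ^ 2 - 3 * b) ^ 3 : ℤ) with hn
    set W : ℕ := 18 * (1 + (-27 * f).natAbs) * B ^ 2 with hW
    have hB0 : B ≠ 0 := by
      intro h
      rw [h] at hB1
      norm_num at hB1
      linarith
    have hW0 : W ≠ 0 := by
      rw [hW]
      positivity
    have hWT : (W : ℝ) ≤ (N : ℝ) ^ T := by
      refine le_trans ?_ hTN
      have h1 : (((-27 * f).natAbs : ℕ) : ℝ) = 27 * |(f : ℝ)| := by
        rw [Nat.cast_natAbs]
        push_cast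
        rw [abs_mul]
        norm_num
      rw [hW]
      push_cast
      rw [h1]
      calc 18 * (1 + 27 * |(f : ℝ)|) * (B : ℝ) ^ 2
          ≤ 18 * (H ^ 6 + 27 * (4096 * H ^ 6)) * (5000 * H ^ 6) ^ 2 := by gcongr
        _ = (18 * (1 + 27 * 4096) * 5000 ^ 2) * H ^ 18 := by ring
        _ ≤ 10 ^ 14 * H ^ 18 := by
            apply mul_le_mul_of_nonneg_right _ (by positivity)
            norm_num
    have hnT : ((n.natAbs : ℕ) : ℝ) ≤ (N : ℝ) ^ T := by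
      refine le_trans ?_ hTN
      rw [Nat.cast_natAbs, hn]
      push_cast
      rw [abs_mul, abs_pow]
      have h1 : |(a : ℝ) ^ 2 - 3 * b| ≤ 37 * H ^ 2 := by
        have h7 : |(a : ℝ)| ^ 2 ≤ H ^ 2 := pow_le_pow_left₀ (abs_nonneg _) haH 2
        calc |(a : ℝ) ^ 2 - 3 * b| ≤ |(a : ℝ) ^ 2| + |3 * (b : ℝ)| := abs_sub _ _
          _ = |(a : ℝ)| ^ 2 + 3 * |(b : ℝ)| := by
              rw [abs_pow, abs_mul]
              norm_num
          _ ≤ H ^ 2 + 3 * (12 * H ^ 2) := by gcongr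
          _ = _ := by ring
      have h2 : H ^ 6 ≤ H ^ 18 := pow_le_pow_right₀ hH1 (by norm_num)
      calc |(4 : ℝ)| * |(a : ℝ) ^ 2 - 3 * b| ^ 3 ≤ 4 * (37 * H ^ 2) ^ 3 := by
            rw [show |(4 : ℝ)| = 4 by norm_num]
            gcongr
        _ = 202612 * H ^ 6 := by ring
        _ ≤ 10 ^ 14 * H ^ 18 := by nlinarith
    have hτ : (n.natAbs.divisors.card : ℝ) ≤ C * Z := by
      by_cases hn0 : n.natAbs = 0
      · rw [hn0]
        simp only [Nat.divisors_zero, card_empty, Nat.cast_zero]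
        positivity
      · refine (hC _ (Nat.one_le_iff_ne_zero.2 hn0)).trans ?_
        exact mul_le_mul_of_nonneg_left (hNδ _ (by positivity) hnT) hC0.le
    have hlog : ((Nat.log 2 W + 1 : ℕ) : ℝ) ≤ C * Z :=
      (log_bound C δ hC hδ0 hC0 W hW0).trans
        (mul_le_mul_of_nonneg_left (hNδ _ (by positivity) hWT) hC0.le)
    have hcub' : (((S.filter fun P => Φ P = ((a, b), f)).image fun P => -P.coeff 0).card : ℝ) ≤
        1 + (n.natAbs.divisors.card : ℝ) * ((n.natAbs.divisors.card : ℝ) *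
          (419904 * ((Nat.log 2 W + 1 : ℕ) : ℝ))) := by exact_mod_cast hcub
    refine hcub'.trans ?_
    have hCZ : 0 ≤ C * Z := by positivity
    calc 1 + (n.natAbs.divisors.card : ℝ) * ((n.natAbs.divisors.card : ℝ) *
          (419904 * ((Nat.log 2 W + 1 : ℕ) : ℝ)))
        ≤ 1 + (C * Z) * ((C * Z) * (419904 * (C * Z))) := by gcongr
      _ = _ := by ring
  have hcard : (S.card : ℝ) ≤ (box.card : ℝ) * (1 + 419904 * C ^ 3 * Z ^ 3) := by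
    rw [card_eq_sum_card_fiberwise hmap]
    push_cast
    calc ∑ v ∈ box, ((S.filter fun P => Φ P = v).card : ℝ)
        ≤ ∑ _v ∈ box, (1 + 419904 * C ^ 3 * Z ^ 3) := sum_le_sum hfib
      _ = _ := by rw [sum_const, nsmul_eq_mul]
  have hM1' : ((Icc 1 M1).card : ℝ) ≤ H := by
    rw [Int.card_Icc, add_sub_cancel_right]
    have h1 : 0 ≤ M1 := Int.floor_nonneg.2 hH0.le
    have h2 : ((M1.toNat : ℕ) : ℝ) = (M1 : ℝ) := by exact_mod_cast Int.toNat_of_nonneg h1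
    rw [h2]
    exact Int.floor_le H
  have hM2' : ((Icc (-M2) M2).card : ℝ) ≤ 25 * H ^ 2 := by
    rw [Int.card_Icc]
    have h1 : 0 ≤ M2 := Int.floor_nonneg.2 (by positivity)
    have h2 : (((M2 + 1 - -M2).toNat : ℕ) : ℝ) = 2 * (M2 : ℝ) + 1 := by
      have : (((M2 + 1 - -M2).toNat : ℕ) : ℤ) = 2 * M2 + 1 := by
        rw [Int.toNat_of_nonneg (by linarith)]
        ring
      exact_mod_cast this
    rw [h2]
    have h3 : (M2 : ℝ) ≤ 12 * H ^ 2 := Int.floor_le _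
    have h4 : 1 ≤ H ^ 2 := one_le_pow₀ hH1
    linarith
  have hF1 : ((insert 1 F).card : ℝ) ≤ 2 * Z ^ 2 := by
    have h1 : ((insert 1 F).card : ℝ) ≤ F.card + 1 := by exact_mod_cast card_insert_le _ _
    have h2 : (F.card : ℝ) ≤ Z ^ 2 := by
      refine q1.trans ?_
      calc (y : ℝ) ^ (ε0 / 4) ≤ (N : ℝ) ^ (ε0 / 4) :=
            Real.rpow_le_rpow (by positivity) hyN' (by positivity)
        _ = Z ^ 2 := by
            rw [hZ, ← Real.rpow_natCast, ← Real.rpow_mul hN0.le]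
            congr 1
            push_cast
            ring
    have h3 : 1 ≤ Z ^ 2 := one_le_pow₀ hZ1
    linarith
  have hboxc : (box.card : ℝ) ≤ 50 * H ^ 3 * Z ^ 2 := by
    rw [hbox, card_product, card_product]
    push_cast
    calc ((Icc 1 M1).card : ℝ) * ((Icc (-M2) M2).card : ℝ) * ((insert 1 F).card : ℝ)
        ≤ H * (25 * H ^ 2) * (2 * Z ^ 2) := by gcongr
      _ = _ := by ring
  have hZ3 : 1 ≤ Z ^ 3 := one_le_pow₀ hZ1
  have hend : (N : ℝ) ^ ε0 = Z ^ 5 * (N : ℝ) ^ (3 * ε0 / 8) := by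
    rw [hZ, ← Real.rpow_natCast, ← Real.rpow_mul hN0.le, ← Real.rpow_add hN0]
    congr 1
    push_cast
    ring
  have hHp : 0 < H ^ 3 := by positivity
  calc (S.card : ℝ) ≤ (box.card : ℝ) * (1 + 419904 * C ^ 3 * Z ^ 3) := hcard
    _ ≤ (50 * H ^ 3 * Z ^ 2) * (Z ^ 3 + 419904 * C ^ 3 * Z ^ 3) := by gcongr
    _ = H ^ 3 * (Z ^ 5 * (50 * (1 + 419904 * C ^ 3))) := by ring
    _ ≤ H ^ 3 * (Z ^ 5 * (N : ℝ) ^ (3 * ε0 / 8)) := by
        have h1 : 50 * (1 + 419904 * C ^ 3) ≤ (N : ℝ) ^ (3 * ε0 / 8) := by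
          refine le_trans ?_ p2
          have : 0 < 1 + 419904 * C ^ 3 := by positivity
          linarith
        gcongr
    _ = H ^ 3 * (N : ℝ) ^ ε0 := by rw [hend]
    _ ≤ H ^ 3 * (N : ℝ) ^ ε :=
        mul_le_mul_of_nonneg_left (Real.rpow_le_rpow_of_exponent_le hN1 hεε) hHp.le

end Pool.Agent.Run7.h445.QC
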