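import Mathlib

/-!
# Points on the conics `X² - E s² = n`

The number of integral points `(X, s)`, `|X|, |s| ≤ B`, is at most the square of the number of
divisors of `n` times a multiple of `log (|E| B)`, if no square of an integer not dividing `18`
divides `4 E`.
-/

set_option autoImplicit false

open Finset

namespace Pool.Agent.Run7.h445.QC

/-- congruent solutions of `U² - E V² = 324` grow -/
theorem pell_grow {E U V U' V' : ℤ} (hE : 2 ≤ E) (hU : 0 ≤ U) (hV : 0 ≤ V) (hU' : 0 ≤ U')
    (h : U ^ 2 - E * V ^ 2 = 324) (h' : U' ^ 2 - E * V' ^ 2 = 324) (hVV : V < V')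
    (hcU : (324 : ℤ) ∣ U' - U) (hcV : (324 : ℤ) ∣ V' - V) : 2 * U ≤ U' := by
  obtain ⟨k, hk⟩ := hcU
  obtain ⟨l, hl⟩ := hcV
  set a : ℤ := U * k - E * V * l + 1 with ha
  set b : ℤ := l * U - V * k with hb
  have ea : 324 * a = U * U' - E * V * V' := by
    have h1 : U' = U + 324 * k := by linarith
    have h2 : V' = V + 324 * l := by linarith
    rw [ha, h1, h2]
    linear_combination (-1) * h
  have eb : 324 * b = V' * U - V * U' := by
    have h1 : U' = U + 324 * k := by linarith
    have h2 : V' = V + 324 * l := by linarith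
    rw [hb, h1, h2]
    ring
  have hab : a ^ 2 - E * b ^ 2 = 1 := by
    have h1 : (324 * a) ^ 2 - E * (324 * b) ^ 2 = 324 ^ 2 := by
      rw [ea, eb]
      calc (U * U' - E * V * V') ^ 2 - E * (V' * U - V * U') ^ 2
          = (U ^ 2 - E * V ^ 2) * (U' ^ 2 - E * V' ^ 2) := by ring
        _ = 324 ^ 2 := by rw [h, h']; norm_num
    nlinarith
  have hV' : 0 ≤ V' := by linarith
  have hbpos : 0 < b := by
    by_contra hcon
    push Not at hcon
    have h1 : V' * U ≤ V * U' := by nlinarith
    have h2 : (V' * U) ^ 2 ≤ (V * U') ^ 2 := pow_le_pow_left₀ (by positivity) h1 2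
    have h3 : (V' * U) ^ 2 - (V * U') ^ 2 = 324 * (V' ^ 2 - V ^ 2) := by
      have e1 : U ^ 2 = 324 + E * V ^ 2 := by linarith
      have e2 : U' ^ 2 = 324 + E * V' ^ 2 := by linarith
      rw [mul_pow, mul_pow, e1, e2]
      ring
    nlinarith
  have hapos : 0 < a := by
    by_contra hcon
    push Not at hcon
    have h1 : U * U' ≤ E * V * V' := by nlinarith
    have h2 : (U * U') ^ 2 ≤ (E * V * V') ^ 2 := pow_le_pow_left₀ (by positivity) h1 2
    have h3 : (U * U') ^ 2 - (E * V * V') ^ 2 = 324 ^ 2 + 324 * E * (V ^ 2 + V' ^ 2) := by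
      have e1 : U ^ 2 = 324 + E * V ^ 2 := by linarith
      have e2 : U' ^ 2 = 324 + E * V' ^ 2 := by linarith
      rw [mul_pow, e1, e2]
      ring
    have h4 : 0 ≤ E * (V ^ 2 + V' ^ 2) := by positivity
    nlinarith
  have ha2 : 2 ≤ a := by
    by_contra hcon
    have : a = 1 := by omega
    rw [this] at hab
    nlinarith [mul_pos (by linarith : 0 < E) (pow_pos hbpos 2)]
  have eU : U' = a * U + E * b * V := by
    have h1 : 324 * U' = 324 * (a * U + E * b * V) := by
      calc 324 * U' = (U ^ 2 - E * V ^ 2) * U' := by rw [h]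
        _ = (U * U' - E * V * V') * U + E * (V' * U - V * U') * V := by ring
        _ = (324 * a) * U + E * (324 * b) * V := by rw [ea, eb]
        _ = _ := by ring
    linarith
  have h1 : 0 ≤ E * b * V := by positivity
  nlinarith

theorem pell_card (E : ℤ) (hE0 : E ≠ 0) (hE1 : E ≠ 1) (Y : ℕ) (S : Finset (ℤ × ℤ))
    (hS : ∀ v ∈ S, v.1 ^ 2 - E * v.2 ^ 2 = 324 ∧ |v.1| ≤ Y) :
    S.card ≤ 419904 * (Nat.log 2 Y + 1) := by
  classical
  rcases lt_or_gt_of_ne hE0 with hE | hE
  · -- `E < 0`
    have hsub : S ⊆ (Icc (-18 : ℤ) 18) ×ˢ (Icc (-18 : ℤ) 18) := by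
      intro v hv
      obtain ⟨h1, -⟩ := hS v hv
      rw [mem_product, mem_Icc, mem_Icc]
      have hv1 : v.1 ^ 2 ≤ 324 := by nlinarith [sq_nonneg v.2]
      have hv2 : v.2 ^ 2 ≤ 324 := by nlinarith [sq_nonneg v.1, sq_nonneg v.2]
      refine ⟨⟨?_, ?_⟩, ⟨?_, ?_⟩⟩ <;> nlinarith
    have h1 := card_le_card hsub
    rw [card_product] at h1
    have h2 : (Icc (-18 : ℤ) 18).card = 37 := by decide
    rw [h2] at h1
    omega
  · have hE2 : 2 ≤ E := by omega
    obtain ⟨q, hq⟩ : ∃ q : ℕ, q = 324 := ⟨_, rfl⟩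
    set key : ℤ × ℤ → (Bool × Bool) × (ℕ × ℕ) × ℕ := fun v =>
      ((decide (0 ≤ v.1), decide (0 ≤ v.2)), (v.1.natAbs % q, v.2.natAbs % q),
        Nat.log 2 v.1.natAbs) with hkey
    have hmap : ∀ v ∈ S, key v ∈ ((univ : Finset (Bool × Bool)) ×ˢ
        ((range q ×ˢ range q) ×ˢ range (Nat.log 2 Y + 1))) := by
      intro v hv
      have h2 := (hS v hv).2
      simp only [hkey, mem_product, mem_univ, mem_range, true_and]
      have hq0 : 0 < q := by omega
      refine ⟨⟨Nat.mod_lt _ hq0, Nat.mod_lt _ hq0⟩, ?_⟩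
      have h3 : v.1.natAbs ≤ Y := by
        rw [← Int.natCast_natAbs] at h2
        exact_mod_cast h2
      exact Nat.lt_succ_of_le (Nat.log_mono_right h3)
    have hinj : Set.InjOn key (S : Set (ℤ × ℤ)) := by
      have hlt : ∀ v ∈ S, ∀ w ∈ S, key v = key w → ¬ |v.2| < |w.2| := by
        intro v hv w hw hvw hlt
        obtain ⟨h1, -⟩ := hS v hv
        obtain ⟨h2, -⟩ := hS w hw
        simp only [hkey, Prod.mk.injEq] at hvw
        obtain ⟨-, ⟨h3, h4⟩, h5⟩ := hvw
        have h6 : 2 * |v.1| ≤ |w.1| := by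
          apply pell_grow hE2 (abs_nonneg _) (abs_nonneg _) (abs_nonneg _) (V := |v.2|)
            (V' := |w.2|) _ _ hlt
          · rw [← Int.natCast_natAbs, ← Int.natCast_natAbs]
            have := Nat.modEq_iff_dvd.1 h3
            rw [hq] at this
            exact this
          · rw [← Int.natCast_natAbs, ← Int.natCast_natAbs]
            have := Nat.modEq_iff_dvd.1 h4
            rw [hq] at this
            exact this
          · rw [sq_abs, sq_abs]; exact h1
          · rw [sq_abs, sq_abs]; exact h2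
        have hv0 : v.1.natAbs ≠ 0 := by
          intro h
          have : v.1 = 0 := Int.natAbs_eq_zero.1 h
          rw [this] at h1
          nlinarith [mul_nonneg hE.le (sq_nonneg v.2)]
        have h7 : v.1.natAbs * 2 ≤ w.1.natAbs := by
          rw [← Int.natCast_natAbs, ← Int.natCast_natAbs] at h6
          have : 2 * v.1.natAbs ≤ w.1.natAbs := by exact_mod_cast h6
          omega
        have h8 := Nat.log_mono_right (b := 2) h7
        rw [Nat.log_mul_base (by norm_num) hv0] at h8
        omega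
      intro v hv w hw hvw
      have h1 := hlt v hv w hw hvw
      have h2 := hlt w hw v hv hvw.symm
      have h3 : |v.2| = |w.2| := le_antisymm (not_lt.1 h2) (not_lt.1 h1)
      have h4 : |v.1| = |w.1| := by
        have e1 := (hS v hv).1
        have e2 := (hS w hw).1
        have h5 : v.1 ^ 2 = w.1 ^ 2 := by
          have : v.2 ^ 2 = w.2 ^ 2 := by rw [← sq_abs v.2, h3, sq_abs]
          rw [this] at e1
          linarith
        exact (sq_eq_sq_iff_abs_eq_abs _ _).1 h5
      simp only [hkey, Prod.mk.injEq, decide_eq_decide] at hvw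
      obtain ⟨⟨h5, h6⟩, -, -⟩ := hvw
      apply Prod.ext
      · by_cases h : 0 ≤ v.1
        · rw [abs_of_nonneg h, abs_of_nonneg (h5.1 h)] at h4
          exact h4
        · have h' : ¬ 0 ≤ w.1 := fun hh => h (h5.2 hh)
          rw [abs_of_neg (not_le.1 h), abs_of_neg (not_le.1 h')] at h4
          linarith
      · by_cases h : 0 ≤ v.2
        · rw [abs_of_nonneg h, abs_of_nonneg (h6.1 h)] at h3
          exact h3
        · have h' : ¬ 0 ≤ w.2 := fun hh => h (h6.2 hh)
          rw [abs_of_neg (not_le.1 h), abs_of_neg (not_le.1 h')] at h3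
          linarith
    have h1 := card_le_card_of_injOn key hmap hinj
    rw [card_product, card_product, card_product, card_range, card_range, card_univ] at h1
    have h2 : Fintype.card (Bool × Bool) = 4 := by decide
    rw [h2] at h1
    refine h1.trans (le_of_eq ?_)
    rw [hq]
    ring

end Pool.Agent.Run7.h445.QC
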