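import Pool.Agent.Run7.h445.QC.Pell

set_option autoImplicit false

open Finset

namespace Pool.Agent.Run7.h445.QC

theorem cop {n E X s : ℤ} (h : X ^ 2 - E * s ^ 2 = n) (hc : IsCoprime X s) : IsCoprime s n := by
  have h1 : IsCoprime (X ^ 2) s := hc.pow_left
  have h2 := h1.add_mul_left_left (-(E * s))
  have e : X ^ 2 + s * -(E * s) = n := by rw [← h]; ring
  rw [e] at h2
  exact h2.symm

theorem divs {n E X s X' s' X2 s2 : ℤ} (hn : n ≠ 0)
    (hdiv : ∀ h : ℤ, h ^ 2 ∣ 4 * E → h ∣ 18) (h : X ^ 2 - E * s ^ 2 = n)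
    (h' : X' ^ 2 - E * s' ^ 2 = n) (h2 : X2 ^ 2 - E * s2 ^ 2 = n) (hc : IsCoprime X s)
    (hc2 : IsCoprime X2 s2)
    (hg : Int.gcd (X * s2 - X2 * s) n = Int.gcd (X' * s2 - X2 * s') n) :
    n ∣ 18 * (s * X' - X * s') := by
  set g : ℤ := (Int.gcd (X * s2 - X2 * s) n : ℤ) with hgdef
  have hg0 : g ≠ 0 := by
    rw [hgdef]
    exact_mod_cast (Int.gcd_pos_of_ne_zero_right _ hn).ne'
  obtain ⟨m, hm⟩ : g ∣ n := Int.gcd_dvd_right _ _
  obtain ⟨u, hu⟩ : g ∣ X * s2 - X2 * s := Int.gcd_dvd_left _ _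
  obtain ⟨u', hu'⟩ : g ∣ X' * s2 - X2 * s' := by
    rw [hgdef, hg]
    exact Int.gcd_dvd_left _ _
  have hcu : ∀ w : ℤ, (Int.gcd (g * w) n : ℤ) = g → IsCoprime w m := by
    intro w hw
    rw [hm, Int.gcd_mul_left] at hw
    have h3 : (g.natAbs : ℤ) * (Int.gcd w m : ℤ) = g := by exact_mod_cast hw
    have h4 : (g.natAbs : ℤ) = g := by
      rw [hgdef]
      simp
    rw [h4] at h3
    have h5 : (Int.gcd w m : ℤ) = 1 := by
      apply mul_left_cancel₀ hg0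
      rw [h3, mul_one]
    rw [Int.isCoprime_iff_gcd_eq_one]
    exact_mod_cast h5
  have hcu1 : IsCoprime u m := hcu u (by rw [← hu])
  have hcu2 : IsCoprime u' m := hcu u' (by rw [← hu', hgdef, hg])
  have hplus : ∀ Y t w : ℤ, Y ^ 2 - E * t ^ 2 = n → Y * s2 - X2 * t = g * w → IsCoprime w m →
      m ∣ Y * s2 + X2 * t := by
    intro Y t w hY hw hcw
    have e : g * (w * (Y * s2 + X2 * t)) = g * (m * (s2 ^ 2 - t ^ 2)) := by
      calc g * (w * (Y * s2 + X2 * t)) = (g * w) * (Y * s2 + X2 * t) := by ring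
        _ = (Y * s2 - X2 * t) * (Y * s2 + X2 * t) := by rw [hw]
        _ = Y ^ 2 * s2 ^ 2 - X2 ^ 2 * t ^ 2 := by ring
        _ = (n + E * t ^ 2) * s2 ^ 2 - (n + E * s2 ^ 2) * t ^ 2 := by
            have e1 : Y ^ 2 = n + E * t ^ 2 := by linarith
            have e2 : X2 ^ 2 = n + E * s2 ^ 2 := by linarith
            rw [e1, e2]
        _ = n * (s2 ^ 2 - t ^ 2) := by ring
        _ = (g * m) * (s2 ^ 2 - t ^ 2) := by rw [← hm]
        _ = _ := by ring
    have e' := mul_left_cancel₀ hg0 e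
    exact hcw.symm.dvd_of_dvd_mul_left ⟨_, e'⟩
  have hp1 := hplus X s u h hu hcu1
  have hp2 := hplus X' s' u' h' hu' hcu2
  have hs2n : IsCoprime s2 n := cop h2 hc2
  have hs2g : IsCoprime s2 g := hs2n.of_isCoprime_of_dvd_right ⟨m, hm⟩
  have hs2m : IsCoprime s2 m := hs2n.of_isCoprime_of_dvd_right ⟨g, by rw [hm]; ring⟩
  set Δ : ℤ := s * X' - X * s' with hΔ
  have hgΔ : g ∣ Δ := by
    apply hs2g.symm.dvd_of_dvd_mul_left
    refine ⟨s * u' - s' * u, ?_⟩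
    rw [hΔ]
    linear_combination s * hu' - s' * hu
  have hmΔ : m ∣ Δ := by
    apply hs2m.symm.dvd_of_dvd_mul_left
    have e : s2 * Δ = s * (X' * s2 + X2 * s') - s' * (X * s2 + X2 * s) := by rw [hΔ]; ring
    rw [e]
    exact dvd_sub (hp2.mul_left s) (hp1.mul_left s')
  -- `h = gcd (g, m)`
  set k : ℤ := (Int.gcd g m : ℤ) with hk
  have hkg : k ∣ g := Int.gcd_dvd_left _ _
  have hkm : k ∣ m := Int.gcd_dvd_right _ _
  have hkn : k ^ 2 ∣ n := by
    rw [hm, sq]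
    exact mul_dvd_mul hkg hkm
  have hkn' : k ∣ n := hkg.trans (Dvd.intro m hm.symm)
  have hnk : n ∣ k * Δ := by
    have hb := Int.gcd_eq_gcd_ab g m
    rw [← hk] at hb
    rw [hb, add_mul]
    obtain ⟨x, hx⟩ := hmΔ
    obtain ⟨z, hz⟩ := hgΔ
    refine dvd_add ?_ ?_
    · refine ⟨Int.gcdA g m * x, ?_⟩
      rw [hx, hm]; ring
    · refine ⟨Int.gcdB g m * z, ?_⟩
      rw [hz, hm]; ring
  have hk18 : k ∣ 18 := by
    apply hdiv
    have hks2 : IsCoprime k s2 := (hs2n.of_isCoprime_of_dvd_right hkn').symm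
    have hks : IsCoprime k s := ((cop h hc).of_isCoprime_of_dvd_right hkn').symm
    have h3 : k ∣ 2 * X := by
      apply hks2.dvd_of_dvd_mul_right
      have e : 2 * X * s2 = (X * s2 - X2 * s) + (X * s2 + X2 * s) := by ring
      rw [e]
      refine dvd_add (hkg.trans ⟨u, hu⟩) (hkm.trans hp1)
    have h4 : k ^ 2 ∣ (2 * X) ^ 2 := pow_dvd_pow_of_dvd h3 2
    have h5 : k ^ 2 ∣ 4 * E * s ^ 2 := by
      have e : 4 * E * s ^ 2 = (2 * X) ^ 2 - 4 * n := by rw [← h]; ring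
      rw [e]
      exact dvd_sub h4 (hkn.mul_left 4)
    exact (hks.pow (m := 2) (n := 2)).dvd_of_dvd_mul_right h5
  exact hnk.trans (mul_dvd_mul hk18 dvd_rfl)

theorem prim_card (n E : ℤ) (hn : n ≠ 0) (hE0 : E ≠ 0) (hE1 : E ≠ 1)
    (hdiv : ∀ h : ℤ, h ^ 2 ∣ 4 * E → h ∣ 18) (B : ℕ) (S : Finset (ℤ × ℤ))
    (hS : ∀ v ∈ S, v.1 ^ 2 - E * v.2 ^ 2 = n ∧ IsCoprime v.1 v.2 ∧ |v.1| ≤ B ∧ |v.2| ≤ B) :
    S.card ≤ n.natAbs.divisors.card *
      (419904 * (Nat.log 2 (18 * (1 + E.natAbs) * B ^ 2) + 1)) := by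
  classical
  rcases S.eq_empty_or_nonempty with h | ⟨v2, hv2⟩
  · rw [h]; simp
  obtain ⟨M, hM⟩ : ∃ M : ℕ, M = 419904 * (Nat.log 2 (18 * (1 + E.natAbs) * B ^ 2) + 1) := ⟨_, rfl⟩
  rw [← hM]
  set G : ℤ × ℤ → ℕ := fun v => Int.gcd (v.1 * v2.2 - v2.1 * v.2) n with hG
  have hGmem : ∀ v ∈ S, G v ∈ n.natAbs.divisors := by
    intro v _
    rw [Nat.mem_divisors]
    refine ⟨?_, by simpa using hn⟩
    exact Int.gcd_dvd_natAbs_right _ _
  have hfib : ∀ g ∈ n.natAbs.divisors, (S.filter fun v => G v = g).card ≤ M := by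
    intro g _
    rcases (S.filter fun v => G v = g).eq_empty_or_nonempty with h | ⟨v', hv'⟩
    · rw [h]; simp
    rw [mem_filter] at hv'
    obtain ⟨hv'S, hv'g⟩ := hv'
    obtain ⟨a1, a2, a3, a4⟩ := hS v' hv'S
    obtain ⟨b1, b2, -, -⟩ := hS v2 hv2
    have hch : ∀ v ∈ S.filter (fun v => G v = g), ∃ w : ℤ × ℤ,
        n * w.1 = 18 * (v.1 * v'.1 - E * v.2 * v'.2) ∧ n * w.2 = 18 * (v.2 * v'.1 - v.1 * v'.2) := by
      intro v hv
      rw [mem_filter] at hv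
      obtain ⟨c1, c2, c3, c4⟩ := hS v hv.1
      have hd := divs hn hdiv c1 a1 b1 c2 b2 (by
        have := hv.2.trans hv'g.symm
        simpa only [hG] using this)
      obtain ⟨V, hV⟩ := hd
      have hd2 : n ^ 2 ∣ (18 * (v.1 * v'.1 - E * v.2 * v'.2)) ^ 2 := by
        refine ⟨324 + E * V ^ 2, ?_⟩
        calc (18 * (v.1 * v'.1 - E * v.2 * v'.2)) ^ 2
            = 324 * ((v.1 ^ 2 - E * v.2 ^ 2) * (v'.1 ^ 2 - E * v'.2 ^ 2)) +
              E * (18 * (v.2 * v'.1 - v.1 * v'.2)) ^ 2 := by ring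
          _ = 324 * (n * n) + E * (n * V) ^ 2 := by rw [c1, a1, hV]
          _ = _ := by ring
      obtain ⟨U, hU⟩ := (Int.pow_dvd_pow_iff two_ne_zero).mp hd2
      exact ⟨(U, V), hU.symm, hV.symm⟩
    choose! κ hκ1 hκ2 using hch
    have hinj : Set.InjOn κ ((S.filter fun v => G v = g : Finset (ℤ × ℤ)) : Set (ℤ × ℤ)) := by
      have hrec : ∀ v ∈ S.filter (fun v => G v = g),
          18 * v.1 = (κ v).1 * v'.1 + E * (κ v).2 * v'.2 ∧
          18 * v.2 = (κ v).1 * v'.2 + (κ v).2 * v'.1 := by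
        intro v hv
        have e1 := hκ1 v hv
        have e2 := hκ2 v hv
        constructor
        · apply mul_left_cancel₀ hn
          calc n * (18 * v.1) = 18 * v.1 * (v'.1 ^ 2 - E * v'.2 ^ 2) := by rw [a1]; ring
            _ = 18 * (v.1 * v'.1 - E * v.2 * v'.2) * v'.1 +
                E * (18 * (v.2 * v'.1 - v.1 * v'.2)) * v'.2 := by ring
            _ = (n * (κ v).1) * v'.1 + E * (n * (κ v).2) * v'.2 := by rw [e1, e2]
            _ = _ := by ring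
        · apply mul_left_cancel₀ hn
          calc n * (18 * v.2) = 18 * v.2 * (v'.1 ^ 2 - E * v'.2 ^ 2) := by rw [a1]; ring
            _ = 18 * (v.1 * v'.1 - E * v.2 * v'.2) * v'.2 +
                (18 * (v.2 * v'.1 - v.1 * v'.2)) * v'.1 := by ring
            _ = (n * (κ v).1) * v'.2 + (n * (κ v).2) * v'.1 := by rw [e1, e2]
            _ = _ := by ring
      intro v hv w hw hvw
      obtain ⟨r1, r2⟩ := hrec v hv
      obtain ⟨r3, r4⟩ := hrec w hw
      rw [hvw] at r1 r2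
      apply Prod.ext <;> linarith
    rw [← card_image_of_injOn hinj, hM]
    apply pell_card E hE0 hE1
    intro w hw
    obtain ⟨v, hv, rfl⟩ := mem_image.1 hw
    have e1 := hκ1 v hv
    have e2 := hκ2 v hv
    have hv' := (mem_filter.1 hv).1
    obtain ⟨c1, c2, c3, c4⟩ := hS v hv'
    constructor
    · apply mul_left_cancel₀ (pow_ne_zero 2 hn)
      calc n ^ 2 * ((κ v).1 ^ 2 - E * (κ v).2 ^ 2) = (n * (κ v).1) ^ 2 - E * (n * (κ v).2) ^ 2 := by
            ring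
        _ = 324 * ((v.1 ^ 2 - E * v.2 ^ 2) * (v'.1 ^ 2 - E * v'.2 ^ 2)) := by rw [e1, e2]; ring
        _ = n ^ 2 * 324 := by rw [c1, a1]; ring
    · have h1 : |(κ v).1| ≤ |n * (κ v).1| := by
        rw [abs_mul]
        exact le_mul_of_one_le_left (abs_nonneg _) (Int.one_le_abs hn)
      refine h1.trans ?_
      rw [e1, abs_mul]
      have h2 : |v.1 * v'.1 - E * v.2 * v'.2| ≤ (1 + |E|) * (B : ℤ) ^ 2 := by
        refine (abs_sub _ _).trans ?_
        rw [abs_mul, abs_mul, abs_mul]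
        have h3 : |v.1| * |v'.1| ≤ (B : ℤ) * B := mul_le_mul c3 a3 (abs_nonneg _) (by positivity)
        have h4 : |v.2| * |v'.2| ≤ (B : ℤ) * B := mul_le_mul c4 a4 (abs_nonneg _) (by positivity)
        have h5 : |E| * |v.2| * |v'.2| ≤ |E| * ((B : ℤ) * B) := by
          rw [mul_assoc]
          exact mul_le_mul_of_nonneg_left h4 (abs_nonneg _)
        calc |v.1| * |v'.1| + |E| * |v.2| * |v'.2| ≤ (B : ℤ) * B + |E| * ((B : ℤ) * B) :=
              add_le_add h3 h5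
          _ = _ := by ring
      have h6 : |(18 : ℤ)| = 18 := by norm_num
      rw [h6]
      push_cast
      nlinarith
  rw [card_eq_sum_card_fiberwise hGmem]
  calc ∑ g ∈ n.natAbs.divisors, (S.filter fun v => G v = g).card
      ≤ ∑ _g ∈ n.natAbs.divisors, M := sum_le_sum hfib
    _ = _ := by rw [sum_const, smul_eq_mul]

theorem all_card (n E : ℤ) (hn : n ≠ 0) (hE0 : E ≠ 0) (hE1 : E ≠ 1)
    (hdiv : ∀ h : ℤ, h ^ 2 ∣ 4 * E → h ∣ 18) (B : ℕ) (S : Finset (ℤ × ℤ))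
    (hS : ∀ v ∈ S, v.1 ^ 2 - E * v.2 ^ 2 = n ∧ |v.1| ≤ B ∧ |v.2| ≤ B) :
    S.card ≤ n.natAbs.divisors.card * (n.natAbs.divisors.card *
      (419904 * (Nat.log 2 (18 * (1 + E.natAbs) * B ^ 2) + 1))) := by
  classical
  set G : ℤ × ℤ → ℕ := fun v => Int.gcd v.1 v.2 with hG
  have hGsq : ∀ v ∈ S, ((G v : ℕ) : ℤ) ^ 2 ∣ n := by
    intro v hv
    rw [← (hS v hv).1]
    have h1 : ((G v : ℕ) : ℤ) ∣ v.1 := Int.gcd_dvd_left _ _
    have h2 : ((G v : ℕ) : ℤ) ∣ v.2 := Int.gcd_dvd_right _ _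
    exact dvd_sub (pow_dvd_pow_of_dvd h1 2) ((pow_dvd_pow_of_dvd h2 2).mul_left E)
  have hGmem : ∀ v ∈ S, G v ∈ n.natAbs.divisors := by
    intro v hv
    rw [Nat.mem_divisors]
    refine ⟨?_, by simpa using hn⟩
    exact Int.natCast_dvd.1 ((dvd_pow_self _ two_ne_zero).trans (hGsq v hv))
  have hfib : ∀ g ∈ n.natAbs.divisors, (S.filter fun v => G v = g).card ≤
      n.natAbs.divisors.card * (419904 * (Nat.log 2 (18 * (1 + E.natAbs) * B ^ 2) + 1)) := by
    intro g hg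
    rcases (S.filter fun v => G v = g).eq_empty_or_nonempty with h | ⟨v', hv'⟩
    · rw [h]; simp
    rw [mem_filter] at hv'
    have hgn : ((g : ℕ) : ℤ) ^ 2 ∣ n := by
      have := hGsq v' hv'.1
      rwa [hv'.2] at this
    obtain ⟨n', hn'⟩ := hgn
    have hg0 : ((g : ℕ) : ℤ) ≠ 0 := by
      intro h
      rw [h] at hn'
      exact hn (by rw [hn']; ring)
    have hn'0 : n' ≠ 0 := by
      rintro rfl
      exact hn (by rw [hn']; ring)
    have hch : ∀ v ∈ S.filter (fun v => G v = g), ∃ w : ℤ × ℤ,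
        v.1 = g * w.1 ∧ v.2 = g * w.2 := by
      intro v hv
      rw [mem_filter] at hv
      have h1 : ((g : ℕ) : ℤ) ∣ v.1 := by rw [← hv.2]; exact Int.gcd_dvd_left _ _
      have h2 : ((g : ℕ) : ℤ) ∣ v.2 := by rw [← hv.2]; exact Int.gcd_dvd_right _ _
      obtain ⟨a, ha⟩ := h1
      obtain ⟨b, hb⟩ := h2
      exact ⟨(a, b), ha, hb⟩
    choose! κ hκ1 hκ2 using hch
    have hinj : Set.InjOn κ ((S.filter fun v => G v = g : Finset (ℤ × ℤ)) : Set (ℤ × ℤ)) := by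
      intro v hv w hw hvw
      apply Prod.ext
      · rw [hκ1 v hv, hκ1 w hw, hvw]
      · rw [hκ2 v hv, hκ2 w hw, hvw]
    rw [← card_image_of_injOn hinj]
    refine (prim_card n' E hn'0 hE0 hE1 hdiv B _ ?_).trans ?_
    · intro w hw
      obtain ⟨v, hv, rfl⟩ := mem_image.1 hw
      have e1 := hκ1 v hv
      have e2 := hκ2 v hv
      have hv' := mem_filter.1 hv
      obtain ⟨c1, c2, c3⟩ := hS v hv'.1
      refine ⟨?_, ?_, ?_, ?_⟩
      · apply mul_left_cancel₀ (pow_ne_zero 2 hg0)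
        rw [← hn', ← c1, e1, e2]
        ring
      · rw [Int.isCoprime_iff_gcd_eq_one]
        have h1 : Int.gcd v.1 v.2 = g := hv'.2
        rw [e1, e2, Int.gcd_mul_left, Int.natAbs_natCast] at h1
        have hg0' : 0 < g := Nat.pos_of_ne_zero (by exact_mod_cast hg0)
        exact Nat.eq_of_mul_eq_mul_left hg0' (by rw [h1, mul_one])
      · refine le_trans ?_ c2
        rw [e1, abs_mul]
        exact le_mul_of_one_le_left (abs_nonneg _) (Int.one_le_abs hg0)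
      · refine le_trans ?_ c3
        rw [e2, abs_mul]
        exact le_mul_of_one_le_left (abs_nonneg _) (Int.one_le_abs hg0)
    · apply Nat.mul_le_mul_right
      apply card_le_card
      apply Nat.divisors_subset_of_dvd (by simpa using hn)
      rw [hn', Int.natAbs_mul]
      exact dvd_mul_left _ _
  rw [card_eq_sum_card_fiberwise hGmem]
  refine (sum_le_sum hfib).trans (le_of_eq ?_)
  rw [sum_const, smul_eq_mul]

end Pool.Agent.Run7.h445.QC
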